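import Pool.Agent.H240.GU.Def5

/-!
# GV-6: the metric on the approximate geodesic
-/

set_option autoImplicit false
set_option linter.unusedSectionVars false

open Set Filter Topology MeasureTheory
open scoped ContDiff ComplexConjugate Real

noncomputable section

namespace Pool.Agent.H187.GV

open Pool.Agent.Y262.EG Pool.Agent.H240.GV

/-! ## Periodicity of the metric -/

theorem phi_per {M P : Type} [TopologicalSpace M] [TopologicalSpace P] {Ω : Set ℂ} {φ : ℂ → ℝ}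
    {pr : ℂ → M} {q : Y → P} (hU : IsUT Ω φ pr q) {w : ℂ} (htm : ∀ z : ℂ, z + w ∈ Ω ↔ z ∈ Ω)
    (htp : ∀ z ∈ Ω, pr (z + w) = pr z) {z : ℂ} (hz : z ∈ Ω) : φ (z + w) = φ z := by
  have hzw : z + w ∈ Ω := (htm z).2 hz
  obtain ⟨θ', r, γ, hr, hball, hdiff, hγz, hγ, -⟩ := hU.deck z hz (z + w) hzw (htp z hz).symm 0
  simp only at hball hdiff hγz hγ
  obtain ⟨r', hr', -, hinj⟩ := hU.injp (z + w) hzw
  have hzb : z ∈ Metric.ball z r := Metric.mem_ball_self hr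
  have hγc : ContinuousAt γ z :=
    (hdiff.differentiableAt (Metric.isOpen_ball.mem_nhds hzb)).continuousAt
  have h1 : ∀ᶠ ζ in 𝓝 z, γ ζ ∈ Metric.ball (z + w) r' := by
    have : Metric.ball (z + w) r' ∈ 𝓝 (γ z) := by
      rw [hγz]
      exact Metric.ball_mem_nhds _ hr'
    exact hγc.eventually_mem this
  have h2 : ∀ᶠ ζ in 𝓝 z, ζ + w ∈ Metric.ball (z + w) r' := by
    have hc : ContinuousAt (fun ζ : ℂ => ζ + w) z := by fun_prop
    exact hc.eventually_mem (Metric.ball_mem_nhds _ hr')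
  have h3 : ∀ᶠ ζ in 𝓝 z, ζ ∈ Metric.ball z r := Metric.isOpen_ball.mem_nhds hzb
  have h4 : γ =ᶠ[𝓝 z] fun ζ => ζ + w := by
    filter_upwards [h1, h2, h3] with ζ a1 a2 a3
    refine hinj a1 a2 ?_
    rw [(hγ ζ a3).2.1, htp ζ (hball a3)]
  have h5 : deriv γ z = 1 := by
    rw [h4.deriv_eq]
    simp
  have h6 := (hγ z hzb).2.2.2
  rw [h5, hγz, norm_one, Real.log_one, add_zero] at h6
  exact h6

/-! ## The functions of the jets -/

/-- the jets -/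
abbrev E4 : Type := ℂ × ℂ × ℂ × ℂ

/-- the domain -/
def UU (Ω : Set ℂ) : Set E4 := {p | p.1 ∈ Ω ∧ p.2.1 ≠ 0}

def F0 (φ : ℂ → ℝ) (p : E4) : ℝ := φ p.1 + Real.log ‖p.2.1‖

def F1 (φ : ℂ → ℝ) (p : E4) : ℝ := fderiv ℝ φ p.1 p.2.1 + (p.2.2.1 * p.2.1⁻¹).re

def F2 (φ : ℂ → ℝ) (p : E4) : ℝ :=
  fderiv ℝ (fderiv ℝ φ) p.1 p.2.1 p.2.1 + fderiv ℝ φ p.1 p.2.2.1 +
    (p.2.2.2 * p.2.1⁻¹ - (p.2.2.1 * p.2.1⁻¹) ^ 2).re

def Gx (φ : ℂ → ℝ) (p : E4) : ℝ :=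
  fderiv ℝ φ p.1 (-Complex.I * p.2.1) + (p.2.2.1 * p.2.1⁻¹).im

theorem UU_open {Ω : Set ℂ} (hO : IsOpen Ω) : IsOpen (UU Ω) := by
  refine IsOpen.inter (hO.preimage continuous_fst) ?_
  exact isOpen_ne.preimage (by fun_prop : Continuous fun p : E4 => p.2.1)

section Smooth

variable {Ω : Set ℂ} {φ : ℂ → ℝ} (hO : IsOpen Ω) (hφ : ContDiffOn ℝ ∞ φ Ω)

include hO hφ

theorem phi_at {a : ℂ} (ha : a ∈ Ω) : ContDiffAt ℝ ∞ φ a := hφ.contDiffAt (hO.mem_nhds ha)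

theorem dphi_at {a : ℂ} (ha : a ∈ Ω) : ContDiffAt ℝ ∞ (fderiv ℝ φ) a :=
  (phi_at hO hφ ha).fderiv_right (m := ∞) (by norm_cast)

theorem ddphi_at {a : ℂ} (ha : a ∈ Ω) : ContDiffAt ℝ ∞ (fderiv ℝ (fderiv ℝ φ)) a :=
  (dphi_at hO hφ ha).fderiv_right (m := ∞) (by norm_cast)

theorem F0_sm : ContDiffOn ℝ 1 (F0 φ) (UU Ω) := by
  intro p hp
  refine ContDiffAt.contDiffWithinAt ?_
  have h1 : ContDiffAt ℝ 1 (fun p : E4 => φ p.1) p :=
    ((phi_at hO hφ hp.1).of_le (by norm_cast)).comp p contDiffAt_fst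
  have h2 : ContDiffAt ℝ 1 (fun p : E4 => p.2.1) p := contDiffAt_fst.comp p contDiffAt_snd
  have h3 : ContDiffAt ℝ 1 (fun p : E4 => Real.log ‖p.2.1‖) p :=
    (h2.norm ℝ hp.2).log (norm_ne_zero_iff.2 hp.2)
  exact h1.add h3

theorem d1 {p : E4} (hp : p ∈ UU Ω) {g : E4 → ℂ} (hg : ContDiffAt ℝ 1 g p) :
    ContDiffAt ℝ 1 (fun p : E4 => fderiv ℝ φ p.1 (g p)) p := by
  have h1 : ContDiffAt ℝ 1 (fun p : E4 => fderiv ℝ φ p.1) p :=
    ((dphi_at hO hφ hp.1).of_le (by norm_cast)).comp p contDiffAt_fst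
  exact h1.clm_apply hg

omit hφ hO in
theorem b_at {p : E4} : ContDiffAt ℝ 1 (fun p : E4 => p.2.1) p :=
  contDiffAt_fst.comp p contDiffAt_snd

omit hφ hO in
theorem c_at {p : E4} : ContDiffAt ℝ 1 (fun p : E4 => p.2.2.1) p :=
  contDiffAt_fst.comp p (contDiffAt_snd.comp p contDiffAt_snd)

omit hφ hO in
theorem d_at {p : E4} : ContDiffAt ℝ 1 (fun p : E4 => p.2.2.2) p :=
  contDiffAt_snd.comp p (contDiffAt_snd.comp p contDiffAt_snd)

omit hφ hO in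
theorem cb_at {p : E4} (hp : p.2.1 ≠ 0) : ContDiffAt ℝ 1 (fun p : E4 => p.2.2.1 * p.2.1⁻¹) p :=
  c_at.mul (b_at.inv hp)

omit hφ hO in
theorem db_at {p : E4} (hp : p.2.1 ≠ 0) : ContDiffAt ℝ 1 (fun p : E4 => p.2.2.2 * p.2.1⁻¹) p :=
  d_at.mul (b_at.inv hp)

omit hφ hO in
theorem re_at {p : E4} {g : E4 → ℂ} (hg : ContDiffAt ℝ 1 g p) :
    ContDiffAt ℝ 1 (fun p => (g p).re) p :=
  Complex.reCLM.contDiff.contDiffAt.comp p hg

omit hφ hO in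
theorem im_at {p : E4} {g : E4 → ℂ} (hg : ContDiffAt ℝ 1 g p) :
    ContDiffAt ℝ 1 (fun p => (g p).im) p :=
  Complex.imCLM.contDiff.contDiffAt.comp p hg

theorem F1_sm : ContDiffOn ℝ 1 (F1 φ) (UU Ω) := by
  intro p hp
  refine ContDiffAt.contDiffWithinAt ?_
  exact (d1 hO hφ hp b_at).add (re_at (cb_at hp.2))

theorem Gx_sm : ContDiffOn ℝ 1 (Gx φ) (UU Ω) := by
  intro p hp
  refine ContDiffAt.contDiffWithinAt ?_
  exact (d1 hO hφ hp (contDiffAt_const.mul b_at)).add (im_at (cb_at hp.2))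

theorem F2_sm : ContDiffOn ℝ 1 (F2 φ) (UU Ω) := by
  intro p hp
  refine ContDiffAt.contDiffWithinAt ?_
  have h1 : ContDiffAt ℝ 1 (fun p : E4 => fderiv ℝ (fderiv ℝ φ) p.1) p :=
    ((ddphi_at hO hφ hp.1).of_le (by norm_cast)).comp p contDiffAt_fst
  have h2 : ContDiffAt ℝ 1 (fun p : E4 => fderiv ℝ (fderiv ℝ φ) p.1 p.2.1 p.2.1) p :=
    (h1.clm_apply b_at).clm_apply b_at
  exact (h2.add (d1 hO hφ hp c_at)).add (re_at ((db_at hp.2).sub ((cb_at hp.2).pow 2)))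

end Smooth

/-! ## Lipschitz bounds near compact sets -/

theorem lip_near {E : Type*} [NormedAddCommGroup E] [NormedSpace ℝ E] [ProperSpace E]
    {U K : Set E} (hU : IsOpen U) (hK : IsCompact K) (hKU : K ⊆ U) {F : E → ℝ}
    (hF : ContDiffOn ℝ 1 F U) : ∃ ε L : ℝ, 0 < ε ∧ 0 ≤ L ∧ ∀ x ∈ K, ∀ y, ‖y - x‖ ≤ ε →
      y ∈ U ∧ |F y - F x| ≤ L * ‖y - x‖ := by
  obtain ⟨ε, hε, hsub⟩ := hK.exists_cthickening_subset_open hU hKU
  have hK' : IsCompact (Metric.cthickening ε K) := hK.cthickening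
  have hcont : ContinuousOn (fderiv ℝ F) U := hF.continuousOn_fderiv_of_isOpen hU le_rfl
  obtain ⟨L, hL⟩ := hK'.exists_bound_of_continuousOn (hcont.mono hsub)
  refine ⟨ε, max L 0, hε, le_max_right _ _, fun x hx y hy => ?_⟩
  have hb : Metric.closedBall x ε ⊆ Metric.cthickening ε K :=
    Metric.closedBall_subset_cthickening hx ε
  have hyb : y ∈ Metric.closedBall x ε := by
    rw [Metric.mem_closedBall, dist_eq_norm]
    exact hy
  refine ⟨hsub (hb hyb), ?_⟩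
  have hxb : x ∈ Metric.closedBall x ε := Metric.mem_closedBall_self hε.le
  have h := (convex_closedBall x ε).norm_image_sub_le_of_norm_fderiv_le (𝕜 := ℝ) (f := F)
    (C := max L 0)
    (fun z hz => (hF.differentiableOn one_ne_zero z (hsub (hb hz))).differentiableAt
      (hU.mem_nhds (hsub (hb hz))))
    (fun z hz => (hL z (hb hz)).trans (le_max_left _ _)) hxb hyb
  exact h


/-! ## Jets of curves -/

/-- the jet of a curve -/
def Jt (s : ℝ → ℂ) (t : ℝ) : E4 :=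
  (s t, iteratedDeriv 1 s t, iteratedDeriv 2 s t, iteratedDeriv 3 s t)

theorem itd_has {s : ℝ → ℂ} (hs : ContDiff ℝ ∞ s) (j : ℕ) (t : ℝ) :
    HasDerivAt (iteratedDeriv j s) (iteratedDeriv (j + 1) s t) t := by
  have h := (hs.differentiable_iteratedDeriv j (by norm_cast; exact ENat.natCast_lt_top j) t).hasDerivAt
  rw [iteratedDeriv_succ]
  exact h

theorem Jt_cont {s : ℝ → ℂ} (hs : ContDiff ℝ ∞ s) : Continuous (Jt s) := by
  have h0 : Continuous s := hs.continuous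
  have h : ∀ j, Continuous (iteratedDeriv j s) := fun j =>
    continuous_iff_continuousAt.2 fun t => (itd_has hs j t).continuousAt
  exact h0.prodMk ((h 1).prodMk ((h 2).prodMk (h 3)))

theorem s_has {s : ℝ → ℂ} (hs : ContDiff ℝ ∞ s) (t : ℝ) :
    HasDerivAt s (iteratedDeriv 1 s t) t := by
  have h := itd_has hs 0 t
  rwa [iteratedDeriv_zero] at h

theorem log_has {s1 : ℝ → ℂ} {s2 : ℂ} {t : ℝ} (h : HasDerivAt s1 s2 t) (h0 : s1 t ≠ 0) :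
    HasDerivAt (fun t => Real.log ‖s1 t‖) (s2 * (s1 t)⁻¹).re t := by
  have h1 := h.norm_sq
  have h2 := (h1.log (pow_ne_zero 2 (norm_ne_zero_iff.2 h0))).const_mul (1 / 2 : ℝ)
  have e1 : (fun t => Real.log ‖s1 t‖) = fun t => 1 / 2 * Real.log (‖s1 t‖ ^ 2) := by
    funext t
    rw [Real.log_pow]
    push_cast
    ring
  rw [e1]
  refine h2.congr_deriv ?_
  rw [Complex.inner, Complex.mul_re, Complex.mul_re, Complex.inv_re, Complex.inv_im,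
    Complex.sq_norm, Complex.conj_re, Complex.conj_im]
  have h3 : Complex.normSq (s1 t) ≠ 0 := by
    rw [Ne, Complex.normSq_eq_zero]
    exact h0
  field_simp

theorem re_has {g : ℝ → ℂ} {g' : ℂ} {t : ℝ} (h : HasDerivAt g g' t) :
    HasDerivAt (fun t => (g t).re) g'.re t :=
  Complex.reCLM.hasFDerivAt.comp_hasDerivAt t h

section Curve

variable {Ω : Set ℂ} {φ : ℂ → ℝ} (hO : IsOpen Ω) (hφ : ContDiffOn ℝ ∞ φ Ω)

include hO hφ

theorem F0_has {s : ℝ → ℂ} (hs : ContDiff ℝ ∞ s) {t : ℝ} (ht : Jt s t ∈ UU Ω) :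
    HasDerivAt (fun t => F0 φ (Jt s t)) (F1 φ (Jt s t)) t := by
  have h1 : HasDerivAt (fun t => φ (s t)) (fderiv ℝ φ (s t) (iteratedDeriv 1 s t)) t :=
    ((phi_at hO hφ ht.1).differentiableAt (by norm_num)).hasFDerivAt.comp_hasDerivAt t (s_has hs t)
  have h2 := log_has (itd_has hs 1 t) ht.2
  exact h1.add h2

theorem F1_has {s : ℝ → ℂ} (hs : ContDiff ℝ ∞ s) {t : ℝ} (ht : Jt s t ∈ UU Ω) :
    HasDerivAt (fun t => F1 φ (Jt s t)) (F2 φ (Jt s t)) t := by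
  have h1 : HasDerivAt (fun t => fderiv ℝ φ (s t))
      (fderiv ℝ (fderiv ℝ φ) (s t) (iteratedDeriv 1 s t)) t :=
    ((dphi_at hO hφ ht.1).differentiableAt (by norm_num)).hasFDerivAt.comp_hasDerivAt t (s_has hs t)
  have h2 := h1.clm_apply (itd_has hs 1 t)
  have h3 := (itd_has hs 2 t).mul ((itd_has hs 1 t).inv ht.2)
  have h4 := h2.add (re_has h3)
  refine h4.congr_deriv ?_
  have hne : iteratedDeriv 1 s t ≠ 0 := ht.2
  unfold F2 Jt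
  simp only [Pi.inv_apply]
  congr 2
  field_simp
  ring

end Curve


/-! ## The metric along holomorphic curves -/

/-- the curve `x ↦ Γ (z0 + x v)` -/
def Cu (Γ : ℂ → ℂ) (z0 v : ℂ) (x : ℝ) : ℂ := Γ (z0 + x * v)

theorem line_has (z0 v : ℂ) (x : ℝ) : HasDerivAt (fun x : ℝ => z0 + (x : ℂ) * v) v x := by
  have h := (Complex.ofRealCLM.hasDerivAt (x := x)).mul_const v
  have h2 := h.const_add z0
  refine h2.congr_deriv ?_
  simp

theorem Cu_has {Γ : ℂ → ℂ} (hΓ : Differentiable ℂ Γ) (z0 v : ℂ) (x : ℝ) :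
    HasDerivAt (Cu Γ z0 v) (v * deriv Γ (z0 + x * v)) x := by
  have h := (hΓ (z0 + x * v)).hasDerivAt.comp_of_eq x (line_has z0 v x) rfl
  refine h.congr_deriv ?_
  ring

theorem Cu_d {Γ : ℂ → ℂ} (hΓ : Differentiable ℂ Γ) (z0 v : ℂ) :
    deriv (Cu Γ z0 v) = fun x => v * Cu (deriv Γ) z0 v x :=
  funext fun x => (Cu_has hΓ z0 v x).deriv

theorem Cu_1 {Γ : ℂ → ℂ} (hΓ : Differentiable ℂ Γ) (z0 v : ℂ) :
    iteratedDeriv 1 (Cu Γ z0 v) = fun x => v * Cu (deriv Γ) z0 v x := by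
  rw [iteratedDeriv_one, Cu_d hΓ]

theorem Cu_2 {Γ : ℂ → ℂ} (hΓ : Differentiable ℂ Γ) (z0 v : ℂ) :
    iteratedDeriv 2 (Cu Γ z0 v) = fun x => v * (v * Cu (deriv (deriv Γ)) z0 v x) := by
  rw [show (2 : ℕ) = 1 + 1 from rfl, iteratedDeriv_succ, Cu_1 hΓ]
  funext x
  exact ((Cu_has hΓ.deriv z0 v x).const_mul v).deriv

theorem ent_sm {Γ : ℂ → ℂ} (hΓ : Differentiable ℂ Γ) : ContDiff ℝ ∞ Γ :=
  (hΓ.contDiff (n := ∞)).restrict_scalars ℝ

theorem Cu_sm {Γ : ℂ → ℂ} (hΓ : Differentiable ℂ Γ) (z0 v : ℂ) : ContDiff ℝ ∞ (Cu Γ z0 v) := by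
  refine (ent_sm hΓ).comp ?_
  exact contDiff_const.add (Complex.ofRealCLM.contDiff.mul contDiff_const)

section Met

variable {Ω : Set ℂ} {φ : ℂ → ℝ} (hO : IsOpen Ω) (hφ : ContDiffOn ℝ ∞ φ Ω)

include hO hφ

theorem Pb_at {Γ : ℂ → ℂ} (hΓ : Differentiable ℂ Γ) {z : ℂ} (hz : Γ z ∈ Ω) (h0 : deriv Γ z ≠ 0) :
    ContDiffAt ℝ ∞ (Pb φ Γ) z := by
  have h1 : ContDiffAt ℝ ∞ (fun z => φ (Γ z)) z :=
    (phi_at hO hφ hz).comp z (ent_sm hΓ).contDiffAt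
  have h2 : ContDiffAt ℝ ∞ (fun z => Real.log ‖deriv Γ z‖) z :=
    ((ent_sm hΓ.deriv).contDiffAt.norm ℝ h0).log (norm_ne_zero_iff.2 h0)
  exact h1.add h2

omit hφ hO in
theorem Jt_mem {Γ : ℂ → ℂ} (hΓ : Differentiable ℂ Γ) {z0 v : ℂ} (hv : ‖v‖ = 1) {x : ℝ} :
    Jt (Cu Γ z0 v) x ∈ UU Ω ↔ Γ (z0 + x * v) ∈ Ω ∧ deriv Γ (z0 + x * v) ≠ 0 := by
  have hv0 : v ≠ 0 := by
    intro h
    rw [h, norm_zero] at hv
    exact zero_ne_one hv
  change (Cu Γ z0 v x ∈ Ω ∧ iteratedDeriv 1 (Cu Γ z0 v) x ≠ 0) ↔ _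
  rw [Cu_1 hΓ]
  constructor
  · rintro ⟨a, b⟩
    refine ⟨a, fun h => b ?_⟩
    change v * deriv Γ (z0 + x * v) = 0
    rw [h, mul_zero]
  · rintro ⟨a, b⟩
    exact ⟨a, mul_ne_zero hv0 b⟩

omit hφ hO in
theorem Pb_line {Γ : ℂ → ℂ} (hΓ : Differentiable ℂ Γ) {z0 v : ℂ} (hv : ‖v‖ = 1) (x : ℝ) :
    Pb φ Γ (z0 + x * v) = F0 φ (Jt (Cu Γ z0 v) x) := by
  unfold Pb F0 Jt
  rw [Cu_1 hΓ]
  simp only [Cu, norm_mul, hv, one_mul]

theorem Pb_d {Γ : ℂ → ℂ} (hΓ : Differentiable ℂ Γ) {z0 v : ℂ} (hv : ‖v‖ = 1) {x : ℝ}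
    (hx : Jt (Cu Γ z0 v) x ∈ UU Ω) :
    fderiv ℝ (Pb φ Γ) (z0 + x * v) v = F1 φ (Jt (Cu Γ z0 v) x) := by
  obtain ⟨a, b⟩ := (Jt_mem hΓ hv).1 hx
  have hd : HasFDerivAt (Pb φ Γ) (fderiv ℝ (Pb φ Γ) (z0 + x * v)) (z0 + x * v) :=
    ((Pb_at hO hφ hΓ a b).differentiableAt (by norm_num)).hasFDerivAt
  have h1 : HasDerivAt (fun x : ℝ => Pb φ Γ (z0 + x * v)) (fderiv ℝ (Pb φ Γ) (z0 + x * v) v) x :=
    HasFDerivAt.comp_hasDerivAt (f := fun x : ℝ => z0 + (x : ℂ) * v) x hd (line_has z0 v x)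
  have h2 := F0_has hO hφ (Cu_sm hΓ z0 v) hx
  have e : (fun x : ℝ => Pb φ Γ (z0 + x * v)) = fun x => F0 φ (Jt (Cu Γ z0 v) x) :=
    funext fun x => Pb_line hΓ hv x
  rw [e] at h1
  exact h1.unique h2

theorem py_at {Γ : ℂ → ℂ} (hΓ : Differentiable ℂ Γ) {z : ℂ} (hz : Γ z ∈ Ω) (h0 : deriv Γ z ≠ 0) :
    ContDiffAt ℝ ∞ (py (Pb φ Γ)) z := by
  have h := ((Pb_at hO hφ hΓ hz h0).fderiv_right (m := ∞) (by norm_cast)).clm_apply
    (contDiffAt_const (c := Complex.I))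
  exact h

theorem Pb_dd {Γ : ℂ → ℂ} (hΓ : Differentiable ℂ Γ)
    (hx : ∀ x, Jt (Cu Γ 0 Complex.I) x ∈ UU Ω) (x : ℝ) :
    py (py (Pb φ Γ)) (0 + x * Complex.I) = F2 φ (Jt (Cu Γ 0 Complex.I) x) := by
  obtain ⟨a, b⟩ := (Jt_mem hΓ Complex.norm_I).1 (hx x)
  have hd : HasFDerivAt (py (Pb φ Γ)) (fderiv ℝ (py (Pb φ Γ)) (0 + x * Complex.I))
      (0 + x * Complex.I) :=
    ((py_at hO hφ hΓ a b).differentiableAt (by norm_num)).hasFDerivAt
  have h1 : HasDerivAt (fun x : ℝ => py (Pb φ Γ) (0 + x * Complex.I))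
      (fderiv ℝ (py (Pb φ Γ)) (0 + x * Complex.I) Complex.I) x :=
    HasFDerivAt.comp_hasDerivAt (f := fun x : ℝ => 0 + (x : ℂ) * Complex.I) x hd
      (line_has 0 Complex.I x)
  have h2 := F1_has hO hφ (Cu_sm hΓ 0 Complex.I) (hx x)
  have e : (fun x : ℝ => py (Pb φ Γ) (0 + x * Complex.I)) =
      fun x => F1 φ (Jt (Cu Γ 0 Complex.I) x) :=
    funext fun x => Pb_d hO hφ hΓ Complex.norm_I (hx x)
  rw [e] at h1
  exact h1.unique h2

theorem Pb_x {Γ : ℂ → ℂ} (hΓ : Differentiable ℂ Γ) {x : ℝ}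
    (hx : Jt (Cu Γ 0 Complex.I) x ∈ UU Ω) :
    px (Pb φ Γ) (0 + x * Complex.I) = Gx φ (Jt (Cu Γ 0 Complex.I) x) := by
  obtain ⟨a, b⟩ := (Jt_mem hΓ Complex.norm_I).1 hx
  obtain ⟨z, hz⟩ : ∃ z : ℂ, z = 0 + x * Complex.I := ⟨_, rfl⟩
  have hz1 : z + ((0 : ℝ) : ℂ) * 1 = z := by simp
  have hm : Jt (Cu Γ z 1) 0 ∈ UU Ω := by
    rw [Jt_mem hΓ norm_one, hz1, hz]
    exact ⟨a, b⟩
  have h1 := Pb_d hO hφ hΓ (z0 := z) (v := 1) norm_one hm
  rw [hz1] at h1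
  unfold px
  rw [← hz, h1]
  unfold F1 Gx Jt
  simp only [Cu_1 hΓ, Cu_2 hΓ, Cu, hz1, ← hz]
  rw [← hz] at b
  have e1 : -Complex.I * (Complex.I * deriv Γ z) = 1 * deriv Γ z := by
    rw [← mul_assoc, neg_mul, Complex.I_mul_I, neg_neg]
  have e2 : Complex.I * (Complex.I * deriv (deriv Γ) z) * (Complex.I * deriv Γ z)⁻¹ =
      Complex.I * (1 * (1 * deriv (deriv Γ) z) * (1 * deriv Γ z)⁻¹) := by
    rw [mul_inv, one_mul, one_mul, one_mul]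
    have hI := Complex.I_ne_zero
    field_simp
  rw [e1, e2, Complex.I_mul_im]

end Met

/-! ## The periodicity of the functions of the jets -/

theorem fd_per {E : Type*} [NormedAddCommGroup E] [NormedSpace ℝ E] {Ω : Set ℂ} {g : ℂ → E} {w : ℂ}
    (hO : IsOpen Ω) (h : ∀ z ∈ Ω, g (z + w) = g z) {a : ℂ} (ha : a ∈ Ω) :
    fderiv ℝ g (a + w) = fderiv ℝ g a := by
  have h1 : (fun x => g (x + w)) =ᶠ[𝓝 a] g := by
    filter_upwards [hO.mem_nhds ha] with x hx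
    exact h x hx
  rw [← h1.fderiv_eq, fderiv_comp_add_right]

section Per

variable {Ω : Set ℂ} {φ : ℂ → ℝ} {w : ℂ} (hO : IsOpen Ω) (h : ∀ z ∈ Ω, φ (z + w) = φ z)

include hO h

theorem F0_per {p : E4} (hp : p.1 ∈ Ω) : F0 φ (p.1 + w, p.2) = F0 φ p := by
  unfold F0
  simp only
  rw [h p.1 hp]

theorem F1_per {p : E4} (hp : p.1 ∈ Ω) : F1 φ (p.1 + w, p.2) = F1 φ p := by
  unfold F1
  simp only
  rw [fd_per hO h hp]

theorem Gx_per {p : E4} (hp : p.1 ∈ Ω) : Gx φ (p.1 + w, p.2) = Gx φ p := by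
  unfold Gx
  simp only
  rw [fd_per hO h hp]

theorem F2_per {p : E4} (hp : p.1 ∈ Ω) : F2 φ (p.1 + w, p.2) = F2 φ p := by
  unfold F2
  simp only
  rw [fd_per hO h hp, fd_per hO (fun z hz => fd_per hO h hz) hp]

end Per

/-! ## Jets of periodic curves -/

theorem itd_per {s : ℝ → ℂ} {T : ℝ} {w : ℂ} (h : ∀ t, s (t + T) = s t + w) (j : ℕ) (t : ℝ) :
    iteratedDeriv (j + 1) s (t + T) = iteratedDeriv (j + 1) s t := by
  induction j generalizing t with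
  | zero =>
    rw [zero_add, iteratedDeriv_one, ← deriv_comp_add_const]
    have e : (fun x => s (x + T)) = fun x => s x + w := funext h
    rw [e, deriv_add_const]
  | succ j ih =>
    rw [iteratedDeriv_succ, ← deriv_comp_add_const]
    have e : (fun x => iteratedDeriv (j + 1) s (x + T)) = iteratedDeriv (j + 1) s := funext ih
    rw [e]

theorem Jt_per {s : ℝ → ℂ} {T : ℝ} {w : ℂ} (h : ∀ t, s (t + T) = s t + w) (t : ℝ) :
    Jt s (t + T) = ((Jt s t).1 + w, (Jt s t).2) := by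
  unfold Jt
  simp only
  rw [h, itd_per h 0, itd_per h 1, itd_per h 2]

/-! ## The comparison -/

theorem main_bound {M P : Type} [TopologicalSpace M] [TopologicalSpace P] {Ω : Set ℂ} {φ : ℂ → ℝ}
    {pr : ℂ → M} {q : Y → P} {c : ℝ → ℂ} {Γ : ℕ → ℂ → ℂ} (hU : IsUT Ω φ pr q) (hc : Gc Ω φ pr c)
    (hA : Ap c Γ) {F : E4 → ℝ} (hF : ContDiffOn ℝ 1 F (UU Ω)) (h0 : ∀ t, F (Jt c t) = 0)
    (hper : ∀ p : E4, p.1 ∈ Ω → F (p.1 + 2 * π * Complex.I, p.2) = F p) :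
    ∃ (N : ℕ) (C : ℝ), 0 ≤ C ∧ ∀ n : ℕ, N ≤ n → ∀ t : ℝ, Jt (Cu (Γ n) 0 Complex.I) t ∈ UU Ω ∧
      |F (Jt (Cu (Γ n) 0 Complex.I) t)| ≤ C / ((n : ℝ) + 1) ^ 4 := by
  have hKc : IsCompact (Jt c '' Icc 0 (2 * π)) := isCompact_Icc.image (Jt_cont hc.sm)
  have hcU : ∀ t, Jt c t ∈ UU Ω := fun t => by
    refine ⟨hc.mem t, ?_⟩
    change iteratedDeriv 1 c t ≠ 0
    rw [iteratedDeriv_one]
    exact hc.ne t
  have hKU : Jt c '' Icc 0 (2 * π) ⊆ UU Ω := by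
    rintro _ ⟨t, -, rfl⟩
    exact hcU t
  obtain ⟨ε, L, hε, hL, hlip⟩ := lip_near (UU_open hU.opn) hKc hKU hF
  obtain ⟨C0, hC0⟩ := hA.close 0 4
  obtain ⟨C1, hC1⟩ := hA.close 1 4
  obtain ⟨C2, hC2⟩ := hA.close 2 4
  obtain ⟨C3, hC3⟩ := hA.close 3 4
  have hcu : ∀ n, (fun t : ℝ => Γ n (t * Complex.I)) = Cu (Γ n) 0 Complex.I := fun n => by
    funext t
    unfold Cu
    rw [zero_add]
  obtain ⟨CC, hCC⟩ : ∃ CC : ℝ, CC = |C0| + |C1| + |C2| + |C3| := ⟨_, rfl⟩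
  have hCC0 : 0 ≤ CC := by rw [hCC]; positivity
  have hdist : ∀ (n : ℕ) (t : ℝ), ‖Jt (Cu (Γ n) 0 Complex.I) t - Jt c t‖ ≤
      CC / ((n : ℝ) + 1) ^ 4 := by
    intro n t
    have hp : 0 < ((n : ℝ) + 1) ^ 4 := by positivity
    have a0 := hC0 n t
    have a1 := hC1 n t
    have a2 := hC2 n t
    have a3 := hC3 n t
    rw [hcu n] at a0 a1 a2 a3
    rw [iteratedDeriv_zero, iteratedDeriv_zero] at a0
    have key : ∀ C : ℝ, C ≤ CC → C / ((n : ℝ) + 1) ^ 4 ≤ CC / ((n : ℝ) + 1) ^ 4 := fun C h =>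
      div_le_div_of_nonneg_right h hp.le
    have l0 := le_abs_self C0
    have l1 := le_abs_self C1
    have l2 := le_abs_self C2
    have l3 := le_abs_self C3
    have m0 := abs_nonneg C0
    have m1 := abs_nonneg C1
    have m2 := abs_nonneg C2
    have m3 := abs_nonneg C3
    refine (norm_prod_le_iff).2 ⟨a0.trans (key _ (by linarith)), ?_⟩
    refine (norm_prod_le_iff).2 ⟨a1.trans (key _ (by linarith)), ?_⟩
    exact (norm_prod_le_iff).2 ⟨a2.trans (key _ (by linarith)), a3.trans (key _ (by linarith))⟩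
  obtain ⟨N, hN⟩ := exists_nat_ge (CC / ε)
  refine ⟨N, L * CC, mul_nonneg hL hCC0, fun n hn => ?_⟩
  have hsmall : CC / ((n : ℝ) + 1) ^ 4 ≤ ε := by
    have hn1 : (1 : ℝ) ≤ (n : ℝ) + 1 := by
      have : (0 : ℝ) ≤ n := Nat.cast_nonneg n
      linarith
    have h1 : (n : ℝ) + 1 ≤ ((n : ℝ) + 1) ^ 4 := le_self_pow₀ hn1 (by norm_num)
    have h2 : (N : ℝ) ≤ n := by exact_mod_cast hn
    rw [div_le_iff₀ hε] at hN
    rw [div_le_iff₀ (by positivity)]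
    have h3 : (N : ℝ) * ε ≤ ((n : ℝ) + 1) ^ 4 * ε :=
      mul_le_mul_of_nonneg_right (by linarith) hε.le
    linarith
  have hsp : ∀ t, Cu (Γ n) 0 Complex.I (t + 2 * π) =
      Cu (Γ n) 0 Complex.I t + 2 * π * Complex.I := by
    intro t
    have h := hA.per n (t * Complex.I)
    unfold Cu
    rw [zero_add, zero_add, ← h]
    congr 1
    push_cast
    ring
  have hloc : ∀ t ∈ Icc 0 (2 * π), Jt (Cu (Γ n) 0 Complex.I) t ∈ UU Ω ∧
      |F (Jt (Cu (Γ n) 0 Complex.I) t)| ≤ L * CC / ((n : ℝ) + 1) ^ 4 := by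
    intro t ht
    have hd := hdist n t
    obtain ⟨b1, b2⟩ := hlip (Jt c t) ⟨t, ht, rfl⟩ (Jt (Cu (Γ n) 0 Complex.I) t) (hd.trans hsmall)
    refine ⟨b1, ?_⟩
    rw [h0 t, sub_zero] at b2
    refine b2.trans ?_
    rw [mul_div_assoc]
    exact mul_le_mul_of_nonneg_left hd hL
  have hmem : ∀ t, Jt (Cu (Γ n) 0 Complex.I) t ∈ UU Ω := by
    have hp1 : Function.Periodic (fun t => Jt (Cu (Γ n) 0 Complex.I) t ∈ UU Ω) (2 * π) := by
      intro t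
      simp only [Jt_per hsp]
      refine propext ⟨fun h => ⟨(hc.trm _).1 h.1, h.2⟩, fun h => ⟨(hc.trm _).2 h.1, h.2⟩⟩
    intro t
    obtain ⟨y, hy, hty⟩ := hp1.exists_mem_Ico₀ Real.two_pi_pos t
    have := (hloc y ⟨hy.1, hy.2.le⟩).1
    exact hty ▸ this
  have hp2 : Function.Periodic (fun t => F (Jt (Cu (Γ n) 0 Complex.I) t)) (2 * π) := by
    intro t
    simp only [Jt_per hsp]
    exact hper _ (hmem t).1
  intro t
  refine ⟨hmem t, ?_⟩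
  obtain ⟨y, hy, hty⟩ := hp2.exists_mem_Ico₀ Real.two_pi_pos t
  rw [hty]
  exact (hloc y ⟨hy.1, hy.2.le⟩).2

theorem clm_eq (A : ℂ →L[ℝ] ℝ) (v : ℂ) : A v = v.re * A 1 + v.im * A Complex.I := by
  have e : v = v.re • (1 : ℂ) + v.im • Complex.I := by
    rw [Complex.real_smul, Complex.real_smul, mul_one, Complex.re_add_im]
  conv_lhs => rw [e]
  rw [map_add, map_smul, map_smul, smul_eq_mul, smul_eq_mul]

theorem stLine : StLine := by
  intro M P _ _ _ _ Ω φ pr q c Γ hU hc hA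
  have hO := hU.opn
  have hφ := hU.smooth
  have hper : ∀ z ∈ Ω, φ (z + 2 * π * Complex.I) = φ z := fun z hz =>
    phi_per hU hc.trm hc.trp hz
  have hcU : ∀ t, Jt c t ∈ UU Ω := fun t => by
    refine ⟨hc.mem t, ?_⟩
    change iteratedDeriv 1 c t ≠ 0
    rw [iteratedDeriv_one]
    exact hc.ne t
  have z0 : ∀ t, F0 φ (Jt c t) = 0 := fun t => by
    have h := hc.unit t
    change φ (c t) + Real.log ‖iteratedDeriv 1 c t‖ = 0
    rw [iteratedDeriv_one]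
    exact h
  have z1 : ∀ t, F1 φ (Jt c t) = 0 := fun t => by
    have h := F0_has hO hφ hc.sm (hcU t)
    have e : (fun t => F0 φ (Jt c t)) = fun _ => (0 : ℝ) := funext z0
    rw [e] at h
    exact h.unique (hasDerivAt_const t 0)
  have z2 : ∀ t, F2 φ (Jt c t) = 0 := fun t => by
    have h := F1_has hO hφ hc.sm (hcU t)
    have e : (fun t => F1 φ (Jt c t)) = fun _ => (0 : ℝ) := funext z1
    rw [e] at h
    exact h.unique (hasDerivAt_const t 0)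
  have zx : ∀ t, Gx φ (Jt c t) = 0 := fun t => by
    have h := hc.geo t
    change fderiv ℝ φ (c t) (-Complex.I * iteratedDeriv 1 c t) +
      (iteratedDeriv 2 c t * (iteratedDeriv 1 c t)⁻¹).im = 0
    have e2 : iteratedDeriv 2 c = deriv (deriv c) := by
      rw [show (2 : ℕ) = 1 + 1 from rfl, iteratedDeriv_succ, iteratedDeriv_one]
    rw [e2, iteratedDeriv_one, ← div_eq_mul_inv, h, clm_eq]
    have r1 : (-Complex.I * deriv c t).re = (deriv c t).im := by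
      simp [Complex.mul_re]
    have r2 : (-Complex.I * deriv c t).im = -(deriv c t).re := by
      simp [Complex.mul_im]
    rw [r1, r2]
    unfold px py
    ring
  obtain ⟨N0, C0, p0, b0⟩ := main_bound hU hc hA (F0_sm hO hφ) z0
    (fun p hp => F0_per hO hper hp)
  obtain ⟨N1, C1, p1, b1⟩ := main_bound hU hc hA (F1_sm hO hφ) z1
    (fun p hp => F1_per hO hper hp)
  obtain ⟨N2, C2, p2, b2⟩ := main_bound hU hc hA (F2_sm hO hφ) z2
    (fun p hp => F2_per hO hper hp)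
  obtain ⟨N3, C3, p3, b3⟩ := main_bound hU hc hA (Gx_sm hO hφ) zx
    (fun p hp => Gx_per hO hper hp)
  refine ⟨N0 + N1 + N2 + N3, C0 + C1 + C2 + C3, fun n hn z hz => ?_⟩
  have c0 := b0 n (by omega)
  have c1 := b1 n (by omega)
  have c2 := b2 n (by omega)
  have c3 := b3 n (by omega)
  have hΓ := hA.ent n
  have hz' : z = 0 + (z.im : ℂ) * Complex.I := by
    apply Complex.ext <;> simp [hz]
  have hp : 0 < ((n : ℝ) + 1) ^ 4 := by positivity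
  have key : ∀ x C : ℝ, x ≤ C / ((n : ℝ) + 1) ^ 4 → C ≤ C0 + C1 + C2 + C3 →
      x ≤ (C0 + C1 + C2 + C3) / ((n : ℝ) + 1) ^ 4 := fun x C h1 h2 =>
    h1.trans (div_le_div_of_nonneg_right h2 hp.le)
  obtain ⟨t, ht⟩ : ∃ t : ℝ, t = z.im := ⟨_, rfl⟩
  rw [← ht] at hz'
  rw [hz']
  refine ⟨?_, ?_, ?_, ?_⟩
  · rw [Pb_line hΓ Complex.norm_I]
    exact key _ C0 (c0 t).2 (by linarith)
  · rw [Pb_x hO hφ hΓ (c3 t).1]
    exact key _ C3 (c3 t).2 (by linarith)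
  · have e : py (Pb φ (Γ n)) (0 + t * Complex.I) = F1 φ (Jt (Cu (Γ n) 0 Complex.I) t) :=
      Pb_d hO hφ hΓ Complex.norm_I (c1 t).1
    rw [e]
    exact key _ C1 (c1 t).2 (by linarith)
  · rw [Pb_dd hO hφ hΓ (fun x => (c2 x).1)]
    exact key _ C2 (c2 t).2 (by linarith)

end Pool.Agent.H187.GV
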